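import Pool.Agent.H367.OS.GPlain

/-!
# Non-vanishing of `L`-functions at the edge and single pieces of one sequence of cubics

A relation `r` of size `m` is one of the equations `x_i x_j = x_l`, `x_i + x_j = x_l`, `x_i = 1` with
`i, j, l < m`; the relations are numbered, the number of `r` is `ν(r)` (`relNum`). Let `G_m` be the
following polynomial with integral coefficients (`univG ℤ m`). There are variables `x_i` and `z_ij` for
`i, j < m`, a variable `c_r` for every relation `r`, and variables `y_{r,l}` for all relations `r` and
`l < (m + 1) 2 ^ ν(r)`. The equations (`eqnG`) are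

  `z_ij - x_i x_j`,  `c_r ^ 2 - c_r`,  `c_r ρ_r`,  `(1 - c_r) y_{r,l}`,

where `ρ_r` is the linear polynomial `z_ij - x_l`, `x_i + x_j - x_l` or `x_i - 1` of the relation.
`G_m` is the sum of the equations multiplied by further variables `t_e`, one for each equation. It has
degree three. Let `C_m` be the affine cubic hypersurface `G_m = 1` (`cubG R m` over the ring `R`); it is
smooth over the integers.

Let `M` be the category of motives over `ℚ` in the sense of André, a semisimple abelian category with
Tate twists `N ↦ N(a)`. For a separated scheme `X` of finite type over `ℚ` let `D.G w j X = Gr^W_w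
H^j_c(X)` be the part of weight `w` of the cohomology with compact supports, a motive over `ℚ`; for
smooth projective `Y` it is `h^j(Y)` if `j = w`, and zero otherwise.

For a motive `N` of weight `w` over `ℚ` let `F.L N s = L(N, s + w/2)` for `Re s > 1`, the Euler
product with the local factors `det(1 - F_p p^{-w/2-s} | N_ℓ^{I_p})^{-1}` (with the choices and in the
standard framework of the question; for a sum of motives of different weights, the product). It does
not change if `N` is replaced by `N(a)` or by an isomorphic motive. `Edge F N` says: if `F.L N` has a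
meromorphic continuation to a neighbourhood of `s = 1`, the order of the continuation at `s = 1` is at
most zero (`NoZero`). The statement `T(N)` is `AllFactors (Edge F) N`: the same for all direct factors
of `N`.

Let `LX X i s` be the `L`-function of the question for `X` and the degree `i`. Question Q1 for `X` and
`i` is `NoZero (LX X i) (i / 2 + 1)`. As `LX X i (s + i/2) = F.L (h^i(X)) s`, it is the same as
`Edge F (h^i(X))`.

**Theorem.** Let `E_m` be the number of the equations, and for `N ∈ ℕ` let `e = (m + 1) N + E_m - 1`
(`esh m N`).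

(1) For every degree `i` the statement `T` is true for the motives `h^i(Y)` of all smooth projective
varieties over `ℚ` if and only if for infinitely many `m` it is true for the single motives
`Gr^W_{i+2e} H^{i+2e+1}_c(C_m)`, for all `N`. In this case question Q1 has a positive answer for all
`X` and this degree `i`.

(2) For every smooth projective variety `X` over `ℚ`, every `d`, and all large `m` there is an `e'`
such that for all `i ≤ d` question Q1 for `X` and `i` is equivalent to the same question for the
`L`-function of the single motive `Gr^W_{i+2e'} H^{i+2e'+1}_c(C_m)`: if it has a meromorphic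
continuation to a neighbourhood of the edge, the continuation does not vanish at the edge.

(3) The hypersurfaces `C_m` decide the statement for the pieces of the cohomology (`DecidesPlain`). For
every affine scheme `Spec B` of finite type over `ℚ` and all large `m` there is an `N` such that for
`0 ≤ w ≤ 2 m + 1` and all `j` the statement for `Gr^W_w H^j_c(Spec B)` is equivalent to the one for
`Gr^W_{w+2e} H^{j+2e+1}_c(C_m)`. For every smooth projective `Y` over `ℚ`, every `d` and all large `m`
there is an `e'` such that for all `i ≤ d` the statement for `h^i(Y)` is equivalent to the one for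
`Gr^W_{i+2e'} H^{i+2e'+1}_c(C_m)`. The statements for the pieces of one `C_m` imply those for all pieces
of a given separated scheme `X` of finite type.

(4) For `i = 0` (the `L`-functions of Artin motives: Artin, Brauer, Hecke) the statement `T` is true for
the single motives in (1), for infinitely many `m` and all `N`.

(5) `G_m` has integral coefficients and degree at most three, and `C_m` is smooth over all rings.

The hypotheses on the motives are standard (`IsMot`): exact sequences, affine bundles, disjoint unions,
the cohomology of affine spaces, the weights of `H^j_c(X)` are between `0` and `2 dim X`, monomorphisms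
split, `Gr^W_w H^j_c(X)` is a direct factor of `h^w(Y)` for some smooth projective `Y` (it is a
subquotient, by the weight spectral sequence), and every smooth projective scheme has an affine bundle
whose total space is affine (Jouanolou).

Idea of the proof. The projection of `C_m` to the affine space with the coordinates `x, z, c, y` is an
affine bundle over the complement of the zero set `W_m` of the equations. The scheme `W_m` is the
disjoint union, over all sets `s` of relations (`c_r = 1` for `r ∈ s` and `c_r = 0` for the others), of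
the products `X_s × 𝔸 ^ ((m + 1) N(s))`, where `X_s` is the affine scheme defined by the relations in
`s` and `N(s) = ∑_{r ∈ s} 2 ^ ν(r)`. The numbers `N(s)` are different, and the dimension of `X_s` is at
most `m`. So the invariant of `W_m` with the index `q + (m + 1) N(s)`, `0 ≤ q ≤ m`, is the invariant of
`X_s` with the index `q`; the other components do not contribute. Every affine scheme of finite type
over a prime field is an `X_s`, for all large `m`.

The universal system of relations is the one of helper854 (`Pool.Agent.H854.SQ`).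
-/

set_option autoImplicit false

open CategoryTheory CategoryTheory.Limits AlgebraicGeometry Pool.Agent.Y116.UV Pool.Agent.Z125.UN
  Pool.Agent.Q193.LT Pool.Agent.H854.SQ Pool.Agent.H367.OS

universe v u



namespace Pool.Agent.Results.MP_2b9663_nt.PiecesOfOneSequence

/-- Every meromorphic continuation of the function `g` from the half-plane `Re s > Re s₀` to a
neighbourhood of `s₀` has order at most zero at `s₀`: it does not vanish there. -/
def NoZero (g : ℂ → ℂ) (s₀ : ℂ) : Prop :=
  ∀ f : ℂ → ℂ, MeromorphicAt f s₀ → (∀ᶠ s in nhds s₀, s₀.re < s.re → f s = g s) →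
    meromorphicOrderAt f s₀ ≤ 0

lemma noZero_of_shift {g g' : ℂ → ℂ} {s₀ c : ℂ} (h : ∀ s : ℂ, s₀.re < s.re → g' s = g (s + c))
    (hg : NoZero g' s₀) : NoZero g (s₀ + c) := by
  intro f hf hfg
  have h1 : MeromorphicAt (fun s => f (s + c)) s₀ :=
    MeromorphicAt.comp_analyticAt hf (by fun_prop)
  have h2 : Filter.Tendsto (fun s : ℂ => s + c) (nhds s₀) (nhds (s₀ + c)) :=
    (continuous_id.add continuous_const).tendsto s₀
  have h3 := hg _ h1 ((h2.eventually hfg).mono fun s hs hs1 => by
    rw [h s hs1]
    exact hs (by rw [Complex.add_re, Complex.add_re]; linarith))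
  rwa [meromorphicOrderAt_fun_comp_add_const_eq_meromorphicOrderAt] at h3

lemma noZero_shift {g g' : ℂ → ℂ} {s₀ c : ℂ} (h : ∀ s : ℂ, s₀.re < s.re → g' s = g (s + c)) :
    NoZero g' s₀ ↔ NoZero g (s₀ + c) := by
  refine ⟨noZero_of_shift h, fun hg => ?_⟩
  have h1 := noZero_of_shift (g := g') (g' := g) (s₀ := s₀ + c) (c := -c) (fun s hs => by
    rw [h (s + -c) (by
      rw [Complex.add_re] at hs
      rw [Complex.add_re, Complex.neg_re]; linarith), neg_add_cancel_right]) hg
  rwa [add_neg_cancel_right] at h1

/-- The `L`-functions `L(N, s + w/2)`, `Re s > 1`, of the motives `N` of weight `w`, and the `L`-functions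
`LX X i` of the smooth projective varieties. -/
structure LFunctions {M : Type u} [Category.{v} M] (D : Pieces ℚ M)
    (LX : Sch ℚ → ℕ → ℂ → ℂ) where
  /-- the function `L(N, s + w/2)` -/
  L : M → ℂ → ℂ
  iso : ∀ {N N' : M}, (N ≅ N') → ∀ s : ℂ, 1 < s.re → L N s = L N' s
  twist : ∀ (a : ℤ) (N : M) (s : ℂ), 1 < s.re → L ((D.tw a).obj N) s = L N s
  coh : ∀ (X : Sch ℚ) (i : ℕ), SmoothProj X → ∀ s : ℂ, 1 < s.re →
    L (D.G i i X) s = LX X i (s + i / 2)

variable {M : Type u} [Category.{v} M] {D : Pieces ℚ M} {LX : Sch ℚ → ℕ → ℂ → ℂ}

/-- The continuation of the `L`-function of `N` does not vanish at the edge. -/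
def Edge (F : LFunctions D LX) (N : M) : Prop := NoZero (F.L N) 1

/-- Question Q1 for `X` and the degree `i`. -/
def Q1 (LX : Sch ℚ → ℕ → ℂ → ℂ) (X : Sch ℚ) (i : ℕ) : Prop := NoZero (LX X i) (i / 2 + 1)

lemma noZero_congr {g g' : ℂ → ℂ} (h : ∀ s : ℂ, 1 < s.re → g' s = g s) :
    NoZero g' 1 ↔ NoZero g 1 := by
  have h1 := noZero_shift (g := g) (g' := g') (s₀ := 1) (c := 0) fun s hs => by
    rw [add_zero]; exact h s (by simpa using hs)
  rwa [add_zero] at h1

lemma edge_iso (F : LFunctions D LX) {N N' : M} (e : N ≅ N') : Edge F N ↔ Edge F N' :=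
  noZero_congr (F.iso e)

lemma edge_twist (F : LFunctions D LX) (a : ℤ) (N : M) : Edge F ((D.tw a).obj N) ↔ Edge F N :=
  noZero_congr (F.twist a N)

lemma edge_coh (F : LFunctions D LX) {X : Sch ℚ} (hX : SmoothProj X) (i : ℕ) :
    Edge F (D.G i i X) ↔ Q1 LX X i := by
  have h1 := noZero_shift (g := LX X i) (g' := F.L (D.G i i X)) (s₀ := 1) (c := i / 2)
    fun s hs => F.coh X i hX s (by simpa using hs)
  rwa [add_comm] at h1

lemma factors_twist [Abelian M] (hD : IsPieces D) (F : LFunctions D LX) (a : ℤ) {N : M}
    (hN : AllFactors (Edge F) N) : AllFactors (Edge F) ((D.tw a).obj N) := by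
  intro R hR
  refine (edge_twist F (-a) R).mp (hN _ ?_)
  obtain ⟨e⟩ := hD.tw_inv a N
  exact (hR.map (D.tw (-a))).trans (Factor.of_iso e)

/-- **Non-vanishing of `L`-functions at the edge and single pieces of one sequence of cubic
hypersurfaces over the integers.** See the explanations above. -/
theorem result [Abelian M] (h : IsMot D) (F : LFunctions D LX)
    (artin : ∀ Y : Sch ℚ, SmoothProj Y → AllFactors (Edge F) (D.G (0 : ℕ) (0 : ℕ) Y)) :
    (∀ i : ℕ,
      ((∀ Y : Sch ℚ, SmoothProj Y → AllFactors (Edge F) (D.G i i Y)) ↔
        ∃ᶠ m in Filter.atTop, ∀ N : ℕ, AllFactors (Edge F)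
          (D.G (i + 2 * esh m N) (i + 2 * esh m N + 1) (cubG ℚ m))) ∧
      ((∃ᶠ m in Filter.atTop, ∀ N : ℕ, AllFactors (Edge F)
          (D.G (i + 2 * esh m N) (i + 2 * esh m N + 1) (cubG ℚ m))) →
        ∀ X : Sch ℚ, SmoothProj X → Q1 LX X i)) ∧
    (∀ X : Sch ℚ, SmoothProj X → ∀ d : ℕ, ∃ m₀ : ℕ, ∀ m, m₀ ≤ m → ∃ e : ℕ, ∀ i : ℕ, i ≤ d →
      (Q1 LX X i ↔ Edge F (D.G (i + 2 * e) (i + 2 * e + 1) (cubG ℚ m)))) ∧
    DecidesPlain D (AllFactors (Edge F)) ∧
    (∃ᶠ m in Filter.atTop, ∀ N : ℕ, AllFactors (Edge F)
      (D.G (2 * esh m N) (2 * esh m N + 1) (cubG ℚ m))) ∧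
    ∀ m : ℕ, (univG ℤ m).totalDegree ≤ 3 ∧
      ∀ (R : Type) [CommRing R], MvPolynomial.map (Int.castRingHom R) (univG ℤ m) = univG R m ∧
        Smooth (cubG R m).hom := by
  have hd : DecidesPlain D (AllFactors (Edge F)) :=
    (decides_pieces isPrimeField_rat h (allFactors_closed _)).plain fun t N =>
      ⟨fun g => by
        have h1 := factors_twist h.pieces F (-t) g
        obtain ⟨e⟩ := h.pieces.tw_inv t N
        exact FactorClosed.isoInv (allFactors_closed _) e h1, fun g => factors_twist h.pieces F t g⟩
  have h0 : ∀ i : ℕ,
      ((∀ Y : Sch ℚ, SmoothProj Y → AllFactors (Edge F) (D.G i i Y)) ↔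
        ∃ᶠ m in Filter.atTop, ∀ N : ℕ, AllFactors (Edge F)
          (D.G (i + 2 * esh m N) (i + 2 * esh m N + 1) (cubG ℚ m))) := fun i =>
    (hd.weight i).out 1 0
  refine ⟨fun i => ⟨h0 i, fun g X hX => (edge_coh F hX i).mp ((h0 i).mpr g X hX).self⟩,
    fun X hX d => ?_, hd, ?_, cubG_facts⟩
  · obtain ⟨m₀, hm⟩ := pieces_proj isPrimeField_rat h.pieces h.device X hX d
    refine ⟨m₀, fun m hm1 => ?_⟩
    obtain ⟨e, he⟩ := hm m hm1
    refine ⟨e, fun i hi => ?_⟩
    obtain ⟨f⟩ := he i i (by positivity) (by exact_mod_cast hi)
    rw [← edge_coh F hX i, edge_iso F f, edge_twist]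
  · have h1 := (h0 0).mp artin
    simpa using h1

end Pool.Agent.Results.MP_2b9663_nt.PiecesOfOneSequence
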