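import Pool.Agent.H500.ME.Mean9
import Pool.Agent.H500.LV.Mert
import Pool.Agent.H500.LV.Irr

set_option autoImplicit false
set_option linter.unusedSectionVars false

/-!
# Non-vanishing at the edge for systems with solvable residual images

The `L`-function of a system of Frobenius polynomials with solvable residual images (for a set of primes
`λ` of positive upper density) does not vanish at the edge `w/2 + 1` of absolute convergence, and the
partial Euler products at this point itself are `(log x)^r` up to factors bounded above and below, `r` the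
dimension of the space of invariants of `V(w/2)` (`0` if `w` is odd).

(The definitions `L`, `HasPole` and the lemmas `order_zero`, `hasPole_of`, `monic_deg`, `exists_alpha`
are copied from helper112's hand-in on the page `MP_1f4fc7_nt`, which is a deduction from the same theorem
`edge`.)
-/

namespace Pool.Agent.Results.MP_2b9663_nt.SolvableResidualImages

open NumberField IsDedekindDomain Filter Topology Polynomial
open Pool.Agent.W401.Cheb (GK IsFrob IsInert dens)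
open Pool.Agent.H500.ME (SolvableAt Att IsCyc Eig MV FV pl nf)

/-- the Euler product `∏ 1 / B_v((N v)^(-s))` at the real number `s` -/
noncomputable def L {K : Type} [Field K] [NumberField K] (B : HeightOneSpectrum (𝓞 K) → ℂ[X])
    (s : ℝ) : ℂ :=
  ∏' v : HeightOneSpectrum (𝓞 K), ((B v).eval (((Ideal.absNorm v.asIdeal : ℝ) ^ (-s) : ℝ) : ℂ))⁻¹

/-- `L B` has a pole of order `r` at `s₀`: the function `(s - s₀)^r * L B s` has a nonzero limit for `s`
tending to `s₀` from the right, and every function which is meromorphic at `s₀` and agrees with `L B` on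
the real numbers to the right of `s₀` has a pole of order exactly `r` at `s₀`. -/
def HasPole {K : Type} [Field K] [NumberField K] (B : HeightOneSpectrum (𝓞 K) → ℂ[X]) (s₀ : ℝ)
    (r : ℕ) : Prop :=
  (∃ c : ℂ, c ≠ 0 ∧ Tendsto (fun s : ℝ => ((s - s₀ : ℝ) : ℂ) ^ r * L B s) (𝓝[>] s₀) (𝓝 c)) ∧
  ∀ g : ℂ → ℂ, MeromorphicAt g s₀ → (∀ᶠ s : ℝ in 𝓝[>] s₀, g s = L B s) →
    meromorphicOrderAt g s₀ = -(r : ℤ)

/-- a function with a nonzero limit along the real ray has order zero -/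
theorem order_zero {F : ℂ → ℂ} {s₀ : ℝ} {c : ℂ} (hc : c ≠ 0)
    (h : Tendsto (fun s : ℝ => F s) (𝓝[>] s₀) (𝓝 c)) : meromorphicOrderAt F (s₀ : ℂ) = 0 := by
  have hray : Tendsto (fun s : ℝ => (s : ℂ)) (𝓝[>] s₀) (𝓝[≠] (s₀ : ℂ)) := by
    rw [tendsto_nhdsWithin_iff]
    refine ⟨(Complex.continuous_ofReal.tendsto s₀).mono_left nhdsWithin_le_nhds, ?_⟩
    filter_upwards [self_mem_nhdsWithin] with s hs
    intro h1
    have h2 : s = s₀ := Complex.ofReal_injective (Set.mem_singleton_iff.1 h1)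
    exact (ne_of_gt (Set.mem_Ioi.1 hs)) h2
  rcases lt_trichotomy (meromorphicOrderAt F (s₀ : ℂ)) 0 with h1 | h1 | h1
  · exfalso
    have h2 := (tendsto_cobounded_of_meromorphicOrderAt_neg h1).comp hray
    have h3 : Tendsto (fun s : ℝ => ‖F s‖) (𝓝[>] s₀) atTop := tendsto_norm_cobounded_atTop.comp h2
    exact not_tendsto_nhds_of_tendsto_atTop h3 _ h.norm
  · exact h1
  · exfalso
    have h2 := (tendsto_zero_of_meromorphicOrderAt_pos h1).comp hray
    exact hc (tendsto_nhds_unique h h2)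

theorem hasPole_of {K : Type} [Field K] [NumberField K] {B : HeightOneSpectrum (𝓞 K) → ℂ[X]}
    {s₀ : ℝ} {r : ℕ} {c : ℂ} (hc : c ≠ 0)
    (h : Tendsto (fun ε : ℝ => (ε : ℂ) ^ r * ∏' v : HeightOneSpectrum (𝓞 K),
      ((B v).eval (((Ideal.absNorm v.asIdeal : ℝ) ^ (-(s₀ + ε)) : ℝ) : ℂ))⁻¹)
      (𝓝[>] 0) (𝓝 c)) : HasPole B s₀ r := by
  have h1 : Tendsto (fun s : ℝ => s - s₀) (𝓝[>] s₀) (𝓝[>] 0) := by
    rw [tendsto_nhdsWithin_iff]
    constructor
    · have h2 : Tendsto (fun s : ℝ => s - s₀) (𝓝 s₀) (𝓝 (s₀ - s₀)) :=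
        (continuous_id.sub continuous_const).tendsto s₀
      rw [sub_self] at h2
      exact h2.mono_left nhdsWithin_le_nhds
    · filter_upwards [self_mem_nhdsWithin] with s hs
      exact Set.mem_Ioi.2 (sub_pos.2 (Set.mem_Ioi.1 hs))
  have h3 : Tendsto (fun s : ℝ => ((s - s₀ : ℝ) : ℂ) ^ r * L B s) (𝓝[>] s₀) (𝓝 c) := by
    refine (h.comp h1).congr fun s => ?_
    simp only [Function.comp_apply, L]
    rw [show s₀ + (s - s₀) = s by ring]
  refine ⟨⟨c, hc, h3⟩, fun g hg hgL => ?_⟩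
  have hid : MeromorphicAt (fun z : ℂ => (z - (s₀ : ℂ)) ^ r) (s₀ : ℂ) :=
    (((MeromorphicAt.id _).sub (MeromorphicAt.const _ _))).pow r
  have h4 : meromorphicOrderAt (fun z : ℂ => (z - (s₀ : ℂ)) ^ r) (s₀ : ℂ) = ((r : ℤ) : WithTop ℤ) := by
    rw [meromorphicOrderAt_eq_int_iff hid]
    exact ⟨fun _ => 1, analyticAt_const, one_ne_zero, by simp⟩
  have h5 := order_zero (F := fun z : ℂ => (z - (s₀ : ℂ)) ^ r * g z) hc (by
    refine h3.congr' ?_
    filter_upwards [hgL] with s hs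
    rw [hs]
    push_cast
    rfl)
  have h6 : meromorphicOrderAt (fun z : ℂ => (z - (s₀ : ℂ)) ^ r * g z) (s₀ : ℂ) =
      meromorphicOrderAt (fun z : ℂ => (z - (s₀ : ℂ)) ^ r) (s₀ : ℂ) +
        meromorphicOrderAt g (s₀ : ℂ) := meromorphicOrderAt_mul hid hg
  rw [h5, h4] at h6
  revert h6
  generalize meromorphicOrderAt g (s₀ : ℂ) = m
  intro h6
  induction m using WithTop.recTopCoe with
  | top => simp at h6
  | coe m =>
    have h7 : (0 : ℤ) = (r : ℤ) + m := by exact_mod_cast h6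
    have h8 : m = -(r : ℤ) := by omega
    rw [h8]
    rfl

section
variable {K E : Type} [Field K] [NumberField K] [Field E] [NumberField E]

/-- at the good places `P v` is monic of degree `n` -/
theorem monic_deg {N n : ℕ} (hN : 2 ≤ N) {P : HeightOneSpectrum (𝓞 K) → (𝓞 E)[X]}
    (hP : Pool.Agent.H500.MW.PosUD (Pool.Agent.H500.TH.SolRes N n P))
    (v : HeightOneSpectrum (𝓞 K)) (hv : (N : 𝓞 K) ∉ v.asIdeal) :
    (P v).Monic ∧ (P v).natDegree = n := by
  obtain ⟨ℓ, hℓ, hℓv⟩ : ∃ ℓ : ℕ, Nat.Prime ℓ ∧ (ℓ : 𝓞 K) ∉ v.asIdeal := by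
    by_cases h2 : ((2 : ℕ) : 𝓞 K) ∈ v.asIdeal
    · refine ⟨3, Nat.prime_three, fun h3 => v.isPrime.ne_top ((Ideal.eq_top_iff_one _).2 ?_)⟩
      have h4 := v.asIdeal.sub_mem h3 h2
      have h5 : ((3 : ℕ) : 𝓞 K) - ((2 : ℕ) : 𝓞 K) = 1 := by norm_num
      rwa [h5] at h4
    · exact ⟨2, Nat.prime_two, h2⟩
  have : Fact ℓ.Prime := ⟨hℓ⟩
  let κ : E →+* PadicAlgCl ℓ := ((IsAlgClosed.lift : E →ₐ[ℚ] PadicAlgCl ℓ) : E →+* PadicAlgCl ℓ)
  obtain ⟨ρ, hρ⟩ := Pool.Agent.H500.ME.att_exists hN hP ℓ κ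
  obtain ⟨σ, hσ⟩ := (Pool.Agent.W401.Frob.main K).1 v
  have h1 := hρ.frob v hv hℓv σ hσ
  have hinj : Function.Injective (κ.comp (algebraMap (𝓞 E) E)) :=
    κ.injective.comp RingOfIntegers.coe_injective
  have h2 : ((P v).map (κ.comp (algebraMap (𝓞 E) E))).Monic := by
    rw [← h1]
    exact Matrix.charpoly_monic _
  refine ⟨Polynomial.monic_of_injective hinj h2, ?_⟩
  rw [← Polynomial.natDegree_map_eq_of_injective hinj (P v), ← h1, Matrix.charpoly_natDegree_eq_dim,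
    Fintype.card_fin]

/-- the roots of `P v` at the good places -/
theorem exists_alpha {N n : ℕ} (hN : 2 ≤ N) {P : HeightOneSpectrum (𝓞 K) → (𝓞 E)[X]}
    (hP : Pool.Agent.H500.MW.PosUD (Pool.Agent.H500.TH.SolRes N n P)) (τ : E →+* ℂ)
    (v : HeightOneSpectrum (𝓞 K)) : ∃ α : Fin n → ℂ, (N : 𝓞 K) ∉ v.asIdeal →
      (P v).map (τ.comp (algebraMap (𝓞 E) E)) = ∏ i, (X - C (α i)) := by
  by_cases hv : (N : 𝓞 K) ∈ v.asIdeal
  · exact ⟨fun _ => 0, fun h => absurd hv h⟩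
  obtain ⟨h1, h2⟩ := monic_deg hN hP v hv
  have hinj : Function.Injective (τ.comp (algebraMap (𝓞 E) E)) :=
    τ.injective.comp RingOfIntegers.coe_injective
  obtain ⟨y, hy⟩ := Pool.Agent.H500.MW.exists_roots
    ((P v).map (τ.comp (algebraMap (𝓞 E) E))) (h1.map _)
  have hdeg : ((P v).map (τ.comp (algebraMap (𝓞 E) E))).natDegree = n := by
    rw [Polynomial.natDegree_map_eq_of_injective hinj, h2]
  refine ⟨fun i => y (Fin.cast hdeg.symm i), fun _ => ?_⟩
  conv_lhs => rw [hy]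
  exact Fintype.prod_equiv (finCongr hdeg) _ _ fun i => rfl

end


section
variable {K : Type} [Field K] [NumberField K]

theorem half {v : HeightOneSpectrum (𝓞 K)} : ((Ideal.absNorm v.asIdeal : ℝ))⁻¹ ≤ 1 / 2 := by
  have h4 : (2 : ℝ) ≤ (Ideal.absNorm v.asIdeal : ℝ) := by
    exact_mod_cast Pool.Agent.H500.ME.one_lt_norm v
  rw [one_div]
  exact inv_anti₀ (by norm_num) h4

/-- the logarithm of one factor -/
theorem one_factor {z : ℂ} (hz : ‖z‖ ≤ 1 / 2) : |Real.log ‖(1 - z)⁻¹‖ - z.re| ≤ ‖z‖ ^ 2 := by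
  have h1 := Complex.norm_log_one_sub_inv_sub_self_le (z := z) (by linarith)
  have h2 : (Complex.log (1 - z)⁻¹ - z).re = Real.log ‖(1 - z)⁻¹‖ - z.re := by
    rw [Complex.sub_re, Complex.log_re]
  rw [← h2]
  refine (Complex.abs_re_le_norm _).trans (h1.trans ?_)
  have h3 : (1 - ‖z‖)⁻¹ ≤ 2 := by
    rw [inv_le_comm₀ (by linarith) (by norm_num)]
    linarith
  nlinarith [sq_nonneg ‖z‖]

/-- **Mertens' theorem at the edge** -/
theorem edge_products (n : ℕ) (w : ℤ) (r : ℕ) (α : HeightOneSpectrum (𝓞 K) → Fin n → ℂ)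
    (B : HeightOneSpectrum (𝓞 K) → ℂ[X])
    (hw : ∀ᶠ v : HeightOneSpectrum (𝓞 K) in cofinite, ∀ i,
      ‖α v i‖ = (Ideal.absNorm v.asIdeal : ℝ) ^ ((w : ℝ) / 2))
    (hB : ∀ᶠ v : HeightOneSpectrum (𝓞 K) in cofinite, B v = ∏ i, (1 - C (α v i) * X))
    (hB0 : ∀ v : HeightOneSpectrum (𝓞 K),
      (B v).eval (((Ideal.absNorm v.asIdeal : ℝ) ^ (-((w : ℝ) / 2 + 1)) : ℝ) : ℂ) ≠ 0)
    (hMV : MV (fun v : HeightOneSpectrum (𝓞 K) => (∑ i, α v i) /
          (((Ideal.absNorm v.asIdeal : ℝ) ^ ((w : ℝ) / 2) : ℝ) : ℂ)) (r : ℂ)) :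
    ∃ C : ℝ, ∀ᶠ x : ℕ in atTop,
      |Real.log ‖∏ v ∈ pl K x, ((B v).eval
        (((Ideal.absNorm v.asIdeal : ℝ) ^ (-((w : ℝ) / 2 + 1)) : ℝ) : ℂ))⁻¹‖ -
          r * Real.log (Real.log x)| ≤ C := by
  classical
  obtain ⟨C2, hC2⟩ := Pool.Agent.H500.LV.mertens_of hMV
  set t : HeightOneSpectrum (𝓞 K) → ℝ :=
    fun v => (Ideal.absNorm v.asIdeal : ℝ) ^ (-((w : ℝ) / 2 + 1)) with ht
  set F : HeightOneSpectrum (𝓞 K) → ℂ := fun v => (∑ i, α v i) /
    (((Ideal.absNorm v.asIdeal : ℝ) ^ ((w : ℝ) / 2) : ℝ) : ℂ) with hF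
  set G : HeightOneSpectrum (𝓞 K) → ℝ := fun v => Real.log ‖((B v).eval ((t v : ℝ) : ℂ))⁻¹‖ -
    (F v / (Ideal.absNorm v.asIdeal : ℂ)).re with hG
  have hGs : Summable G := by
    refine Summable.of_norm_bounded_eventually
      ((Pool.Agent.H921R2.TatePole.nm_summable (K := K) (x := 2) (by norm_num)).mul_left (n : ℝ)) ?_
    filter_upwards [hw, hB] with v hv hBv
    have hpos : (0 : ℝ) < (Ideal.absNorm v.asIdeal : ℝ) := Pool.Agent.H358.ME.ACM.norm_pos v
    have hz : ∀ i, ‖α v i * ((t v : ℝ) : ℂ)‖ = ((Ideal.absNorm v.asIdeal : ℝ))⁻¹ := by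
      intro i
      rw [norm_mul, hv i, Complex.norm_real, Real.norm_of_nonneg (Real.rpow_nonneg hpos.le _),
        ← Real.rpow_add hpos]
      have h3 : (w : ℝ) / 2 + -((w : ℝ) / 2 + 1) = -1 := by ring
      rw [h3, Real.rpow_neg_one]
    have h1 : ∀ i, |Real.log ‖(1 - α v i * ((t v : ℝ) : ℂ))⁻¹‖ - (α v i * ((t v : ℝ) : ℂ)).re| ≤
        (Ideal.absNorm v.asIdeal : ℝ) ^ (-(2 : ℝ)) := by
      intro i
      refine (one_factor (by rw [hz i]; exact half)).trans (le_of_eq ?_)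
      rw [hz i, Real.rpow_neg hpos.le, inv_pow]
      norm_num
    have h2 : (B v).eval ((t v : ℝ) : ℂ) = ∏ i, (1 - α v i * ((t v : ℝ) : ℂ)) := by
      rw [hBv, Polynomial.eval_prod]
      refine Finset.prod_congr rfl fun i _ => ?_
      rw [Polynomial.eval_sub, Polynomial.eval_one, Polynomial.eval_mul, Polynomial.eval_C,
        Polynomial.eval_X]
    have hne : ∀ i, (1 - α v i * ((t v : ℝ) : ℂ)) ≠ 0 := by
      intro i h
      have h3 := hz i
      rw [← sub_eq_zero.1 h, norm_one] at h3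
      have h4 := half (v := v)
      rw [← h3] at h4
      norm_num at h4
    have h3 : Real.log ‖((B v).eval ((t v : ℝ) : ℂ))⁻¹‖ =
        ∑ i, Real.log ‖(1 - α v i * ((t v : ℝ) : ℂ))⁻¹‖ := by
      rw [h2, ← Finset.prod_inv_distrib, norm_prod, Real.log_prod]
      intro i _
      exact norm_ne_zero_iff.2 (inv_ne_zero (hne i))
    have h4 : F v / (Ideal.absNorm v.asIdeal : ℂ) = ∑ i, α v i * ((t v : ℝ) : ℂ) := by
      rw [hF, ht, ← Finset.sum_mul]
      simp only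
      rw [div_div, div_eq_mul_inv]
      congr 1
      rw [Real.rpow_neg hpos.le, Real.rpow_add hpos, Real.rpow_one]
      push_cast
      rfl
    show ‖Real.log ‖((B v).eval ((t v : ℝ) : ℂ))⁻¹‖ -
      (F v / (Ideal.absNorm v.asIdeal : ℂ)).re‖ ≤ _
    rw [h3, h4, Complex.re_sum, ← Finset.sum_sub_distrib]
    refine (norm_sum_le _ _).trans ((Finset.sum_le_sum fun i _ => h1 i).trans (le_of_eq ?_))
    rw [Finset.sum_const, Finset.card_univ, Fintype.card_fin, nsmul_eq_mul]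
    rfl
  refine ⟨(∑' v, ‖G v‖) + C2, ?_⟩
  filter_upwards [hC2] with x hx
  have h1 : Real.log ‖∏ v ∈ pl K x, ((B v).eval ((t v : ℝ) : ℂ))⁻¹‖ =
      ∑ v ∈ pl K x, Real.log ‖((B v).eval ((t v : ℝ) : ℂ))⁻¹‖ := by
    rw [norm_prod, Real.log_prod]
    intro v _
    exact norm_ne_zero_iff.2 (inv_ne_zero (hB0 v))
  have h2 : Real.log ‖∏ v ∈ pl K x, ((B v).eval ((t v : ℝ) : ℂ))⁻¹‖ -
      r * Real.log (Real.log x) = (∑ v ∈ pl K x, G v) +
      (∑ v ∈ pl K x, F v / (Ideal.absNorm v.asIdeal : ℂ) -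
        (r : ℂ) * ((Real.log (Real.log x) : ℝ) : ℂ)).re := by
    rw [h1, Complex.sub_re, Complex.re_sum, ← Complex.ofReal_natCast, ← Complex.ofReal_mul,
      Complex.ofReal_re, hG, Finset.sum_sub_distrib]
    ring
  show |Real.log ‖∏ v ∈ pl K x, ((B v).eval ((t v : ℝ) : ℂ))⁻¹‖ -
      r * Real.log (Real.log x)| ≤ _
  rw [h2]
  refine (abs_add_le _ _).trans (add_le_add ?_ ((Complex.abs_re_le_norm _).trans hx))
  exact (norm_sum_le _ _).trans (hGs.norm.sum_le_tsum _ fun _ _ => norm_nonneg _)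

end

/-- **Non-vanishing at the edge.** -/
theorem result (K E : Type) [Field K] [NumberField K] [Field E] [NumberField E] (N n : ℕ)
    (hN : 2 ≤ N) (P : HeightOneSpectrum (𝓞 K) → (𝓞 E)[X])
    (h : ¬ Tendsto (dens (SolvableAt N n P)) atTop (𝓝 0)) (τ : E →+* ℂ) (w : ℤ)
    (v₀ : HeightOneSpectrum (𝓞 K)) (hv₀ : (N : 𝓞 K) ∉ v₀.asIdeal)
    (hone : ∀ z ∈ ((P v₀).map (τ.comp (algebraMap (𝓞 E) E))).roots,
      (Ideal.absNorm v₀.asIdeal : ℝ) ^ (((w : ℝ) - 1) / 2) < ‖z‖ ∧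
      ‖z‖ < (Ideal.absNorm v₀.asIdeal : ℝ) ^ (((w : ℝ) + 1) / 2)) :
    ∃ r : ℕ, (Odd w → r = 0) ∧
      (∀ (ℓ : ℕ) [Fact ℓ.Prime] (κ : E →+* PadicAlgCl ℓ),
        (∃ ρ : GK K →* GL (Fin n) (PadicAlgCl ℓ), Att N n P ℓ κ ρ) ∧
        (∃ χ : GK K →* (PadicAlgCl ℓ)ˣ, IsCyc ℓ χ) ∧
        ∀ ρ : GK K →* GL (Fin n) (PadicAlgCl ℓ), Att N n P ℓ κ ρ →
          ∀ χ : GK K →* (PadicAlgCl ℓ)ˣ, IsCyc ℓ χ → ∀ q : ℤ, w = 2 * q →
          Module.finrank (PadicAlgCl ℓ) (Eig ρ χ (-q)) = r) ∧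
      ∀ B : HeightOneSpectrum (𝓞 K) → ℂ[X],
        (∀ v : HeightOneSpectrum (𝓞 K), (N : 𝓞 K) ∉ v.asIdeal →
          B v = ((P v).map (τ.comp (algebraMap (𝓞 E) E))).reverse) →
        (∀ v : HeightOneSpectrum (𝓞 K), (N : 𝓞 K) ∈ v.asIdeal →
          (B v).eval (((Ideal.absNorm v.asIdeal : ℝ) ^ (-((w : ℝ) / 2 + 1)) : ℝ) : ℂ) ≠ 0) →
        HasPole B ((w : ℝ) / 2 + 1) r ∧
        ∃ C : ℝ, ∀ᶠ x : ℕ in atTop,
          |Real.log ‖∏ v ∈ pl K x, ((B v).eval
            (((Ideal.absNorm v.asIdeal : ℝ) ^ (-((w : ℝ) / 2 + 1)) : ℝ) : ℂ))⁻¹‖ -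
              r * Real.log (Real.log x)| ≤ C := by
  classical
  have hP : Pool.Agent.H500.MW.PosUD (Pool.Agent.H500.TH.SolRes N n P) :=
    Pool.Agent.H500.MW.PosUD.mono (Pool.Agent.H500.MW.posUD_of_not h) fun _ hv => hv.solRes
  have hpure := Pool.Agent.H500.LV.pure_main K E N n hN P h τ w v₀ hv₀ hone τ
  choose α hα using exists_alpha hN hP τ
  have hwα : ∀ v : HeightOneSpectrum (𝓞 K), (N : 𝓞 K) ∉ v.asIdeal → ∀ i,
      ‖α v i‖ = (Ideal.absNorm v.asIdeal : ℝ) ^ ((w : ℝ) / 2) := by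
    intro v hv i
    refine hpure v hv _ ?_
    rw [hα v hv, mem_roots (monic_prod_of_monic _ _ fun k _ => monic_X_sub_C _).ne_zero, IsRoot,
      eval_prod]
    exact Finset.prod_eq_zero (Finset.mem_univ i) (by simp)
  obtain ⟨r, hr0, hr1, hr2⟩ := Pool.Agent.H500.ME.edge Pool.Agent.H500.ME.all_CYC
    Pool.Agent.H500.ME.all_DUI Pool.Agent.H500.ME.all_PUR N n hN P hP τ α hα w hwα
  refine ⟨r, hr0, fun ℓ _ κ => hr1 ℓ κ, fun B hB hB0 => ⟨?_, ?_⟩⟩
  · obtain ⟨c, hc, hlim⟩ := hr2 B (fun v hv => by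
      rw [hB v hv, hα v hv, Pool.Agent.H500.ME.rev_split]) hB0
    exact hasPole_of hc hlim
  · have hr : MV (FV P τ w) (r : ℂ) := by
      have : Fact (Nat.Prime 2) := ⟨Nat.prime_two⟩
      let κ : E →+* PadicAlgCl 2 := ((IsAlgClosed.lift : E →ₐ[ℚ] PadicAlgCl 2) : E →+* PadicAlgCl 2)
      obtain ⟨⟨ρ, hρ⟩, ⟨χ, hχ⟩, hfr⟩ := hr1 2 κ
      have h1 := Pool.Agent.H500.ME.mean_V Pool.Agent.H500.ME.all_CYC Pool.Agent.H500.ME.all_DUI
        Pool.Agent.H500.ME.all_PUR N n hN P hP w τ hpure 2 κ ρ hρ χ hχ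
      rcases Int.even_or_odd w with h2 | h2
      · obtain ⟨q, hq⟩ := h2
        have h3 := h1.1 q (by omega)
        rw [hfr ρ hρ χ hχ q (by omega)] at h3
        exact h3
      · rw [hr0 h2, Nat.cast_zero]
        exact h1.2 h2
    refine edge_products n w r α B ?_ ?_ ?_ ?_
    · filter_upwards [Pool.Agent.H500.ME.ev_not_mem (K := K) (N := N) (by omega)] with v hv
      exact hwα v hv
    · filter_upwards [Pool.Agent.H500.ME.ev_not_mem (K := K) (N := N) (by omega)] with v hv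
      rw [hB v hv, hα v hv, Pool.Agent.H500.ME.rev_split]
    · intro v
      by_cases hv : (N : 𝓞 K) ∈ v.asIdeal
      · exact hB0 v hv
      · rw [hB v hv, hα v hv, Pool.Agent.H500.ME.rev_split, Polynomial.eval_prod,
          Finset.prod_ne_zero_iff]
        intro i _
        rw [Polynomial.eval_sub, Polynomial.eval_one, Polynomial.eval_mul, Polynomial.eval_C,
          Polynomial.eval_X, sub_ne_zero]
        intro h1
        have h2 := congrArg norm h1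
        have hpos : (0 : ℝ) < (Ideal.absNorm v.asIdeal : ℝ) :=
          Pool.Agent.H358.ME.ACM.norm_pos v
        rw [norm_one, norm_mul, hwα v hv i, Complex.norm_real, Real.norm_of_nonneg
          (Real.rpow_nonneg hpos.le _), ← Real.rpow_add hpos] at h2
        have h3 : (w : ℝ) / 2 + -((w : ℝ) / 2 + 1) = -1 := by ring
        rw [h3, Real.rpow_neg_one] at h2
        have h5 := half (v := v)
        rw [← h2] at h5
        norm_num at h5
    · refine (Pool.Agent.H500.ME.all_MVB K).2.2.2 _ _ _ hr ?_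
      filter_upwards [Pool.Agent.H500.ME.ev_not_mem (K := K) (N := N) (by omega)] with v hv
      unfold FV nf
      congr 1
      have h2 := congrArg Polynomial.nextCoeff (hα v hv)
      rw [Polynomial.nextCoeff_map (show Function.Injective (τ.comp (algebraMap (𝓞 E) E)) from
        τ.injective.comp RingOfIntegers.coe_injective),
        prod_X_sub_C_nextCoeff] at h2
      rw [map_neg]
      have h3 : τ ((P v).nextCoeff : E) = -∑ i, α v i := h2
      rw [h3, neg_neg]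

end Pool.Agent.Results.MP_2b9663_nt.SolvableResidualImages
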